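import Mathlib

namespace Pool.Agent.Q148.Sup

open Filter Topology

/-- the pair `(a_j, a'_j)` -/
def ab (A : ℕ) : ℕ → ℕ × ℕ
  | 0 => (A, A + 1)
  | j + 1 => ((ab A j).1 * (2 + (ab A j).2), (ab A j).2 * (2 + (ab A j).1))

lemma ab_diff (A j : ℕ) : (ab A j).2 = (ab A j).1 + 2 ^ j := by
  induction j with
  | zero => simp [ab]
  | succ j ih =>
    simp only [ab]
    rw [ih]
    ring

lemma ab_ge (A j : ℕ) : A ≤ (ab A j).1 := by
  induction j with
  | zero => simp [ab]
  | succ j ih =>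
    simp only [ab]
    calc A ≤ (ab A j).1 * 1 := by simpa using ih
      _ ≤ _ := Nat.mul_le_mul_left _ (by omega)

lemma ab_ge2 (A j : ℕ) : A ≤ (ab A j).2 := by
  rw [ab_diff]; exact le_trans (ab_ge A j) (Nat.le_add_right _ _)

/-- selector -/
def sel (s : Bool) (p : ℕ × ℕ) : ℕ := if s then p.1 else p.2

lemma sel_ge (s : Bool) (A j : ℕ) : A ≤ sel s (ab A j) := by
  cases s
  · exact ab_ge2 A j
  · exact ab_ge A j

lemma sel_succ (s : Bool) (A j : ℕ) :
    sel s (ab A (j + 1)) = sel s (ab A j) * (2 + sel (!s) (ab A j)) := by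
  cases s <;> simp [sel, ab]

lemma sel_mul (s : Bool) (p : ℕ × ℕ) : sel s p * sel (!s) p = p.1 * p.2 := by
  cases s <;> simp [sel, mul_comm]

lemma sel_dvd (s : Bool) (A : ℕ) {i j : ℕ} (h : i ≤ j) : sel s (ab A i) ∣ sel s (ab A j) := by
  induction j, h using Nat.le_induction with
  | base => exact dvd_rfl
  | succ j _ ih => rw [sel_succ]; exact ih.mul_right _

/-- ratio of different members -/
lemma sel_ratio (s : Bool) (A : ℕ) {i j : ℕ} (h : i < j) :
    A * sel s (ab A i) ≤ sel s (ab A j) := by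
  have h1 : sel s (ab A (i + 1)) ∣ sel s (ab A j) := sel_dvd s A h
  rcases Nat.eq_zero_or_pos A with rfl | hA
  · simp
  have hpos : 0 < sel s (ab A j) := lt_of_lt_of_le hA (sel_ge s A j)
  refine le_trans ?_ (Nat.le_of_dvd hpos h1)
  rw [sel_succ, mul_comm]
  refine Nat.mul_le_mul_left _ ?_
  have := sel_ge (!s) A i
  omega

/-- the product `Q_n` -/
def Q (n : ℕ) : ℕ := (ab (n + 1) (n + 1)).1 * (ab (n + 1) (n + 1)).2

lemma Q_ge (n : ℕ) : 4 ≤ Q n := by
  have h1 : (ab (n + 1) (n + 1)).1 = (ab (n + 1) n).1 * (2 + (ab (n + 1) n).2) := rfl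
  have h2 := ab_ge (n + 1) n
  have h3 := ab_diff (n + 1) n
  have h4 := ab_ge2 (n + 1) (n + 1)
  have h5 : 0 < 2 ^ n := by positivity
  have h6 : 4 ≤ (ab (n + 1) (n + 1)).1 := by
    rw [h1]
    calc 4 = 1 * 4 := rfl
      _ ≤ _ := Nat.mul_le_mul (by omega) (by omega)
  unfold Q
  calc 4 = 4 * 1 := rfl
    _ ≤ _ := Nat.mul_le_mul h6 (by omega)

/-- the sequence `b` -/
def b : ℕ → ℕ
  | 0 => 1
  | n + 1 => b n * Q n

lemma b_pos (n : ℕ) : 0 < b n := by
  induction n with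
  | zero => simp [b]
  | succ n ih => exact Nat.mul_pos ih (by have := Q_ge n; omega)

lemma b_succ (n : ℕ) : b (n + 1) = b n * Q n := rfl

lemma b_dvd {i j : ℕ} (h : i ≤ j) : b i ∣ b j := by
  induction j, h using Nat.le_induction with
  | base => exact dvd_rfl
  | succ j _ ih => rw [b_succ]; exact ih.mul_right _

lemma b_lt (n : ℕ) : b n < b (n + 1) := by
  rw [b_succ]
  have := b_pos n
  have := Q_ge n
  nlinarith

lemma b_mono : StrictMono b := strictMono_nat_of_lt_succ b_lt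

lemma b_four (n i : ℕ) : 4 ^ i * b n ≤ b (n + i) := by
  induction i with
  | zero => simp
  | succ i ih =>
    have : b (n + (i + 1)) = b (n + i) * Q (n + i) := rfl
    rw [this]
    calc 4 ^ (i + 1) * b n = (4 ^ i * b n) * 4 := by ring
      _ ≤ _ := Nat.mul_le_mul ih (Q_ge _)

/-- the set of values of the sequence `c` -/
def C (s : Bool) : Set ℕ :=
  {m | ∃ n, m = b n ∨ ∃ j ≤ n + 1, m * sel s (ab (n + 1) j) = b (n + 1)}

lemma mem_b (s : Bool) (n : ℕ) : b n ∈ C s := ⟨n, Or.inl rfl⟩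

lemma C_pos {s : Bool} {m : ℕ} (h : m ∈ C s) : 0 < m := by
  obtain ⟨n, rfl | ⟨j, _, h⟩⟩ := h
  · exact b_pos n
  · have := b_pos (n + 1)
    rw [← h] at this
    exact Nat.pos_of_mul_pos_right this

/-- normal form: every member lies in a block `(b n, b (n + 1)]` or is `1` -/
lemma C_form {s : Bool} {m : ℕ} (h : m ∈ C s) : m = 1 ∨ ∃ n, m = b (n + 1) ∨
    ∃ j ≤ n + 1, m * sel s (ab (n + 1) j) = b (n + 1) := by
  obtain ⟨n, rfl | h⟩ := h
  · cases n with
    | zero => left; rfl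
    | succ n => right; exact ⟨n, Or.inl rfl⟩
  · right; exact ⟨n, Or.inr h⟩

lemma sel_pos (s : Bool) (n j : ℕ) : 0 < sel s (ab (n + 1) j) :=
  lt_of_lt_of_le (Nat.succ_pos n) (sel_ge s (n + 1) j)

/-- block members in explicit form -/
lemma block {s : Bool} {n j m : ℕ} (hj : j ≤ n + 1)
    (h : m * sel s (ab (n + 1) j) = b (n + 1)) :
    ∃ q, sel s (ab (n + 1) (n + 1)) = sel s (ab (n + 1) j) * q ∧
      m = b n * (sel (!s) (ab (n + 1) (n + 1)) * q) := by
  obtain ⟨q, hq⟩ := sel_dvd s (n + 1) hj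
  refine ⟨q, hq, ?_⟩
  have h1 : b (n + 1) = b n * (sel s (ab (n + 1) (n + 1)) * sel (!s) (ab (n + 1) (n + 1))) := by
    rw [b_succ, sel_mul]; rfl
  rw [h1, hq] at h
  have := sel_pos s n j
  apply Nat.eq_of_mul_eq_mul_right this
  rw [h]; ring

lemma block_dvd {s : Bool} {n j m : ℕ} (hj : j ≤ n + 1)
    (h : m * sel s (ab (n + 1) j) = b (n + 1)) : b n ∣ m ∧ m ∣ b (n + 1) := by
  obtain ⟨q, _, hm⟩ := block hj h
  exact ⟨hm ▸ Dvd.intro _ rfl, h ▸ Dvd.intro _ rfl⟩

lemma sel_top (s : Bool) (n : ℕ) : n + 2 ≤ sel s (ab (n + 1) (n + 1)) := by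
  rw [sel_succ]
  have h1 := sel_ge s (n + 1) n
  have h2 := sel_ge (!s) (n + 1) n
  calc n + 2 ≤ (n + 1) * 2 := by omega
    _ ≤ _ := Nat.mul_le_mul h1 (by omega)

lemma block_ratio {s : Bool} {n j m : ℕ} (hj : j ≤ n + 1)
    (h : m * sel s (ab (n + 1) j) = b (n + 1)) : (n + 2) * b n ≤ m := by
  obtain ⟨q, hq, hm⟩ := block hj h
  rw [hm, mul_comm]
  refine Nat.mul_le_mul_left _ ?_
  have h1 := sel_top (!s) n
  have h2 : 0 < q := by
    rcases Nat.eq_zero_or_pos q with rfl | h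
    · have := sel_pos s n (n + 1)
      simp at hq; omega
    · exact h
  calc n + 2 = (n + 2) * 1 := by ring
    _ ≤ _ := Nat.mul_le_mul h1 h2

/-- the possible quotients -/
def P (s : Bool) (n : ℕ) : Set ℕ := {p | p = 1 ∨ ∃ j ≤ n + 1, p = sel s (ab (n + 1) j)}

lemma P_pos {s : Bool} {n p : ℕ} (h : p ∈ P s n) : 0 < p := by
  obtain rfl | ⟨j, _, rfl⟩ := h
  · exact one_pos
  · exact sel_pos s n j

lemma P_chain {s : Bool} {n p p' : ℕ} (h : p ∈ P s n) (h' : p' ∈ P s n) : p ∣ p' ∨ p' ∣ p := by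
  obtain rfl | ⟨j, _, rfl⟩ := h
  · exact Or.inl (one_dvd _)
  obtain rfl | ⟨j', _, rfl⟩ := h'
  · exact Or.inr (one_dvd _)
  rcases le_total j j' with hj | hj
  · exact Or.inl (sel_dvd s _ hj)
  · exact Or.inr (sel_dvd s _ hj)

lemma P_ratio {s : Bool} {n p p' : ℕ} (h : p ∈ P s n) (h' : p' ∈ P s n) (hlt : p' < p) :
    (n + 1) * p' ≤ p := by
  obtain rfl | ⟨j, _, rfl⟩ := h
  · have := P_pos h'; omega
  obtain rfl | ⟨j', _, rfl⟩ := h'
  · rw [mul_one]; exact sel_ge s (n + 1) j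
  · apply sel_ratio
    by_contra hj
    push Not at hj
    exact absurd (Nat.le_of_dvd (sel_pos s n j') (sel_dvd s (n + 1) hj)) (not_le.2 hlt)

/-- the members of the chain lie in blocks -/
lemma C_block {s : Bool} {m : ℕ} (h : m ∈ C s) : m = 1 ∨ ∃ n, b n < m ∧ b n ∣ m ∧
    (n + 1) * b n ≤ m ∧ ∃ p ∈ P s n, m * p = b (n + 1) := by
  rcases C_form h with rfl | ⟨n, rfl | ⟨j, hj, h⟩⟩
  · exact Or.inl rfl
  · refine Or.inr ⟨n, b_lt n, b_dvd (Nat.le_succ n), ?_, 1, Or.inl rfl, mul_one _⟩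
    have h1 := block_ratio (s := s) (n := n) (j := 0) (Nat.zero_le _)
      (m := b n * (sel (!s) (ab (n + 1) (n + 1)) * (sel s (ab (n + 1) (n + 1)) /
        sel s (ab (n + 1) 0)))) (by
        have h2 : b (n + 1) = b n * (sel s (ab (n + 1) (n + 1)) *
            sel (!s) (ab (n + 1) (n + 1))) := by rw [b_succ, sel_mul]; rfl
        rw [h2]
        obtain ⟨q, hq⟩ := sel_dvd s (n + 1) (Nat.zero_le (n + 1))
        rw [hq, Nat.mul_div_cancel_left _ (sel_pos s n 0)]
        ring)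
    have h3 : (n + 1) * b n ≤ (n + 2) * b n := Nat.mul_le_mul_right _ (by omega)
    have h4 : b n * (sel (!s) (ab (n + 1) (n + 1)) * (sel s (ab (n + 1) (n + 1)) /
        sel s (ab (n + 1) 0))) ≤ b (n + 1) := by
      rw [b_succ]
      refine Nat.mul_le_mul_left _ ?_
      calc _ ≤ sel (!s) (ab (n + 1) (n + 1)) * sel s (ab (n + 1) (n + 1)) :=
            Nat.mul_le_mul_left _ (Nat.div_le_self _ _)
        _ = Q n := by rw [mul_comm, sel_mul]; rfl
    exact h3.trans (h1.trans h4)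
  · refine Or.inr ⟨n, ?_, (block_dvd hj h).1, ?_, _, Or.inr ⟨j, hj, rfl⟩, h⟩
    · have := block_ratio hj h
      have := b_pos n
      nlinarith
    · exact le_trans (Nat.mul_le_mul_right _ (by omega)) (block_ratio hj h)

lemma C_le {s : Bool} {m n p : ℕ} (_hp : p ∈ P s n) (h : m * p = b (n + 1)) : m ∣ b (n + 1) :=
  h ▸ Dvd.intro _ rfl

/-- block numbers are monotone -/
lemma block_lt {m m' n n' : ℕ} (h : m ∣ b (n + 1)) (h' : b n' < m') (hm : m' ≤ m) : n' ≤ n := by
  by_contra hn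
  push Not at hn
  have h1 : m ≤ b (n + 1) := Nat.le_of_dvd (b_pos _) h
  have h2 : b (n + 1) ≤ b n' := b_mono.monotone hn
  omega

lemma C_chain {s : Bool} {x y : ℕ} (hx : x ∈ C s) (hy : y ∈ C s) : x ∣ y ∨ y ∣ x := by
  rcases C_block hx with rfl | ⟨n, hn1, hn2, hn3, p, hp, hn4⟩
  · exact Or.inl (one_dvd _)
  rcases C_block hy with rfl | ⟨m, hm1, hm2, hm3, q, hq, hm4⟩
  · exact Or.inr (one_dvd _)
  rcases lt_trichotomy n m with h | h | h
  · exact Or.inl ((C_le hp hn4).trans ((b_dvd h).trans hm2))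
  · subst h
    rcases P_chain hp hq with h | h
    · right
      obtain ⟨r, rfl⟩ := h
      have : x * p = (y * r) * p := by rw [hn4, ← hm4]; ring
      rw [Nat.eq_of_mul_eq_mul_right (P_pos hp) this]
      exact Dvd.intro _ rfl
    · left
      obtain ⟨r, rfl⟩ := h
      have : y * q = (x * r) * q := by rw [hm4, ← hn4]; ring
      rw [Nat.eq_of_mul_eq_mul_right (P_pos hq) this]
      exact Dvd.intro _ rfl
  · exact Or.inr ((C_le hq hm4).trans ((b_dvd h).trans hn2))

lemma C_ratio {s : Bool} {x y : ℕ} (hx : x ∈ C s) (hy : y ∈ C s) (hlt : x < y) {R : ℕ}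
    (hR : b R < y) : (R + 1) * x ≤ y := by
  rcases C_block hy with rfl | ⟨m, hm1, hm2, hm3, q, hq, hm4⟩
  · have := b_pos R; omega
  have hRm : R ≤ m := by
    by_contra h
    push Not at h
    have h1 : y ≤ b (m + 1) := Nat.le_of_dvd (b_pos _) (C_le hq hm4)
    have h2 : b (m + 1) ≤ b R := b_mono.monotone h
    omega
  refine le_trans (Nat.mul_le_mul_right _ (Nat.succ_le_succ hRm)) ?_
  rcases C_block hx with rfl | ⟨n, hn1, hn2, hn3, p, hp, hn4⟩
  · refine le_trans ?_ hm3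
    exact Nat.mul_le_mul_left _ (b_pos m)
  rcases lt_or_ge n m with h | h
  · refine le_trans (Nat.mul_le_mul_left _ ?_) hm3
    exact (Nat.le_of_dvd (b_pos _) (C_le hp hn4)).trans (b_mono.monotone h)
  · have h' : n = m := by
      refine le_antisymm ?_ h
      exact block_lt (C_le hq hm4) hn1 hlt.le
    subst h'
    have hpq : q < p := by
      by_contra hc
      push Not at hc
      have h1 : x * p < y * q := lt_of_lt_of_le (Nat.mul_lt_mul_of_pos_right hlt (P_pos hp))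
        (Nat.mul_le_mul_left _ hc)
      omega
    have h2 := P_ratio hp hq hpq
    have h3 : (n + 1) * x * q ≤ y * q := by
      calc (n + 1) * x * q = x * ((n + 1) * q) := by ring
        _ ≤ x * p := Nat.mul_le_mul_left _ h2
        _ = y * q := by rw [hn4, hm4]
    exact Nat.le_of_mul_le_mul_right h3 (P_pos hq)

lemma C_infinite (s : Bool) : (setOf (· ∈ C s)).Infinite := by
  refine Set.infinite_of_injective_forall_mem b_mono.injective (fun n => mem_b s n)

/-- the sequence `c` -/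
noncomputable def c (s : Bool) (i : ℕ) : ℕ := Nat.nth (· ∈ C s) i

lemma c_mem (s : Bool) (i : ℕ) : c s i ∈ C s := Nat.nth_mem_of_infinite (C_infinite s) i

lemma c_strictMono (s : Bool) : StrictMono (c s) := Nat.nth_strictMono (C_infinite s)

lemma c_surj {s : Bool} {m : ℕ} (h : m ∈ C s) : ∃ i, c s i = m := by
  have : m ∈ Set.range (Nat.nth (· ∈ C s)) := by
    rw [Nat.range_nth_of_infinite (C_infinite s)]; exact h
  exact this

lemma c_zero (s : Bool) : c s 0 = 1 := by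
  obtain ⟨i, hi⟩ := c_surj (mem_b s 0)
  have h1 : c s 0 ≤ c s i := (c_strictMono s).monotone (Nat.zero_le i)
  have h2 : b 0 = 1 := rfl
  have h3 := C_pos (c_mem s 0)
  omega

lemma c_dvd (s : Bool) (i : ℕ) : c s i ∣ c s (i + 1) := by
  have hlt := c_strictMono s (Nat.lt_succ_self i)
  rcases C_chain (c_mem s i) (c_mem s (i + 1)) with h | h
  · exact h
  · exact absurd (Nat.le_of_dvd (C_pos (c_mem s i)) h) (not_le.2 hlt)

lemma c_ratio (s : Bool) (R i : ℕ) (h : b R ≤ i) : (R + 1) * c s i ≤ c s (i + 1) := by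
  refine C_ratio (c_mem s i) (c_mem s (i + 1)) (c_strictMono s (Nat.lt_succ_self i)) ?_
  have := (c_strictMono s).id_le (i + 1)
  simp only [id] at this
  omega

end Pool.Agent.Q148.Sup
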